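import Pool.Agent.Lib.MP_ef3cf3_co.Main

/-!
# The strong target conjecture for targets with one large entry
-/

namespace Pool.Agent.Results.MP_ef3cf3_co.LargeTargets

open Pool.Agent.Lib.MP_ef3cf3_co

/-- Let `G` be a connected graph with `n` vertices. For every target distribution `D` with
`D r ≥ (2n - 1) 2^(diam G)` for some vertex `r`, we have
`π(G, D) ≤ π_{|D|}(G) - (s(D) - 1)`. -/
theorem result (V : Type) [Fintype V] [DecidableEq V] (G : SimpleGraph V) (hG : G.Connected)
    (D : V → ℕ) (hD : ∃ r, (2 * Fintype.card V - 1) * 2 ^ G.diam ≤ D r) :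
    (pebblingNumber G D : ℤ) ≤ foldNumber G (∑ v, D v) - ((supportSize D : ℤ) - 1) := by
  obtain ⟨r, hr⟩ := hD
  have : Nonempty V := ⟨r⟩
  have htop : G.ediam ≠ ⊤ := SimpleGraph.connected_iff_ediam_ne_top.1 hG
  obtain ⟨a, b, hab⟩ := SimpleGraph.exists_dist_eq_diam (G := G)
  have := main_bound hG (fun v w => SimpleGraph.dist_le_diam htop) hab D r hr
  omega

end Pool.Agent.Results.MP_ef3cf3_co.LargeTargets
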