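import Pool.Agent.Lib.MP_ef3cf3_co.Unsolv

/-!
# The target conjectures for graph pebbling are false

The graph has 107 vertices: nine sources `s(i, j)` (`i, j < 3`), six lines (three row lines, three
column lines) with sixteen levels each, and two targets `r₁`, `r₂`.  The source `s(i, j)` is
adjacent to the top vertices of the row line `i` and of the column line `j`; consecutive vertices
of a line are adjacent; the six vertices on each level form a clique; `r₁` is adjacent to the
bottom vertices of the row lines and `r₂` to those of the column lines.

With `37449` pebbles on every source (`337041` in all) one cannot reach `r₁ + r₂`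
(`Pool.Agent.Lib.MP_ef3cf3_co.unsolvable`), while every configuration with `328500` pebbles reaches
two pebbles on every vertex (`Pool.Agent.Lib.MP_ef3cf3_co.upper_all`).
-/

namespace Pool.Agent.Results.MP_ef3cf3_co.TargetCounterexample

open Pool.Agent.Lib.MP_ef3cf3_co

/-- There are a connected graph `G` and a target distribution `D` on `G` with `|D| = s(D) = 2`,
`π_{|D|}(G) ≤ 328500` and `π(G, D) ≥ 337042`.  In particular
`π(G, D) ≥ π_{|D|}(G) - s(D) + 2`, so the strong target conjecture is false, and
`π(G, D) > π_{|D|}(G)`, so the weaker target conjecture is false as well. -/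
theorem result : ∃ (V : Type) (_ : Fintype V) (_ : DecidableEq V) (G : SimpleGraph V) (D : V → ℕ),
    G.Connected ∧ ∑ v, D v = 2 ∧ supportSize D = 2 ∧
      foldNumber G (∑ v, D v) ≤ 328500 ∧ 337042 ≤ pebblingNumber G D ∧
      (foldNumber G (∑ v, D v) : ℤ) - supportSize D + 2 ≤ pebblingNumber G D := by
  have hD : ∑ v, Dd v = 2 := by
    simp only [Dd, Pi.add_apply]
    rw [Finset.sum_add_distrib]
    simp
  have hs : supportSize Dd = 2 := by
    unfold supportSize
    have : (Finset.univ.filter fun v => 0 < Dd v) = {tgt true, tgt false} := by
      ext v
      simp only [Dd, Pi.add_apply, Finset.mem_filter, Finset.mem_univ, true_and,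
        Finset.mem_insert, Finset.mem_singleton]
      by_cases h1 : v = tgt true
      · subst h1
        simp
      · by_cases h2 : v = tgt false
        · subst h2
          simp
        · rw [Pi.single_eq_of_ne h1, Pi.single_eq_of_ne h2]
          simp [h1, h2]
    rw [this]
    rfl
  have hf : foldNumber Gr 2 ≤ 328500 :=
    Finset.sup_le fun r _ => Nat.sInf_le fun C hC => upper_all r C hC
  have hp : 337042 ≤ pebblingNumber Gr Dd := by
    by_contra hlt
    push Not at hlt
    have : Nonempty Vx := ⟨tgt true⟩
    have htop : Gr.ediam ≠ ⊤ := SimpleGraph.connected_iff_ediam_ne_top.1 Gr_connected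
    refine unsolvable (pebblingNumber_spec Gr_connected
      (fun v w => SimpleGraph.dist_le_diam htop) Dd Czero ?_)
    rw [Czero_size]
    omega
  refine ⟨Vx, inferInstance, inferInstance, Gr, Dd, Gr_connected, hD, hs, ?_, hp, ?_⟩
  · rw [hD]
    exact hf
  · rw [hD, hs]
    omega

end Pool.Agent.Results.MP_ef3cf3_co.TargetCounterexample
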